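import Pool.Agent.Lib.MP_e1f7e2_al.FA.H15.Cnt

set_option autoImplicit false

/-!
Project FA: modules CMLF, CMLN, CML (automorphisms of `K⟨x_1, x_2⟩` are tame).
-/

open MulOpposite

namespace Pool.Agent.Lib.MP_e1f7e2_al.FA.H15

open Pool.Agent.Lib.MP_e1f7e2_al.FA.H47.Gr Pool.Agent.Lib.MP_e1f7e2_al.FA.H74

section

variable {K : Type*} [Field K] {w : Fin 3 → ℝ}

theorem w_ne (hw : Gen w) {i j : Fin 3} (hij : i ≠ j) : w i ≠ w j := by
  intro h
  apply hij
  have h1 : wt w (FreeMonoid.of i) = wt w (FreeMonoid.of j) := by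
    rw [wt_of, wt_of, h]
  have h2 := hw.perm _ _ h1
  have h3 : i ∈ (FreeMonoid.of j : Wd 3).toList := by
    rw [← h2.mem_iff]
    rw [FreeMonoid.toList_of]
    exact List.mem_singleton.2 rfl
  rw [FreeMonoid.toList_of] at h3
  exact List.mem_singleton.1 h3

theorem x12 (hF : Facts K w) : (xx 1 : A K 3) * xx 2 ≠ xx 2 * xx 1 :=
  hF.f.nc _ _ _ (hF.f.p23 _ _ _ (hF.f.p12 _ _ _ hF.f.base))

theorem com12 (hF : Facts K w) : ¬ Com w (xx 1 : A K 3) (xx 2) := by
  unfold Com E
  push Not
  rw [hF.d.xx', hF.d.xx']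
  have hcoeff : ((xx 1 : A K 3) * xx 2 - xx 2 * xx 1).coeff
      (FreeMonoid.of 1 * FreeMonoid.of 2) ≠ 0 := by
    classical
    unfold xx
    rw [MonoidAlgebra.single_mul_single, MonoidAlgebra.single_mul_single, coeff_sub,
      MonoidAlgebra.coeff_single, MonoidAlgebra.coeff_single, Finsupp.single_eq_same,
      Finsupp.single_apply, if_neg]
    · simp
    · intro h
      have h2 := congrArg FreeMonoid.toList h
      rw [FreeMonoid.toList_mul, FreeMonoid.toList_mul] at h2
      simp at h2
  have h2 := le_dgr' (ω := wt w) hcoeff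
  rw [wt_mul, wt_of, wt_of] at h2
  exact h2

theorem comsymm (hF : Facts K w) (f g : A K 3) (h : Com w f g) : Com w g f := by
  unfold Com at h ⊢
  rw [hF.e.comm]
  linarith

/-- elements of `K⟨f,g⟩` commute if `f, g` do -/
theorem comm_of (f g p q : A K 3) (h : f * g = g * f) (hp : p ∈ B f g) (hq : q ∈ B f g) :
    p * q = q * p := by
  have hc : ∀ a ∈ ({f, g} : Set (A K 3)), ∀ b ∈ ({f, g} : Set (A K 3)), a * b = b * a := by
    rintro a (rfl | ha) b (rfl | hb)
    · rfl
    · rw [Set.mem_singleton_iff.1 hb]; exact h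
    · rw [Set.mem_singleton_iff.1 ha]; exact h.symm
    · rw [Set.mem_singleton_iff.1 ha, Set.mem_singleton_iff.1 hb]
  letI := Algebra.adjoinCommRingOfComm K hc
  have := mul_comm (⟨p, hp⟩ : Algebra.adjoin K ({f, g} : Set (A K 3))) ⟨q, hq⟩
  exact congrArg Subtype.val this

theorem nc_of (hF : Facts K w) (f g : A K 3) (h : B f g = B (xx 1) (xx 2)) : f * g ≠ g * f := by
  intro hc
  apply x12 hF
  apply comm_of f g _ _ hc
  · rw [h]; exact hF.s.bf _ _
  · rw [h]; exact hF.s.bg _ _

/-- polynomials in the small generator -/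
theorem small_of (hF : Facts K w) (f g q : A K 3) (hf : 0 < dg w f) (hg : 0 < dg w g)
    (hc : ¬ Com w f g) (hle : dg w f ≤ dg w g) (hq : q ∈ B f g) (hq0 : 0 < dg w q) :
    dg w f ≤ dg w q := by
  by_contra hlt
  push Not at hlt
  obtain ⟨R, rfl⟩ := hF.t.fr1 f g q hf hg hc hq (by linarith)
  rw [hF.d.poly f R hf] at hq0 hlt
  have h1 : R.natDegree ≠ 0 := by
    intro h0
    rw [h0] at hq0
    simp at hq0
  have h2 : (1 : ℝ) ≤ R.natDegree := by exact_mod_cast Nat.one_le_iff_ne_zero.2 h1
  nlinarith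

theorem aeval_comm2 (p : A K 3) (R S : Polynomial K) :
    Polynomial.aeval p R * Polynomial.aeval p S = Polynomial.aeval p S * Polynomial.aeval p R := by
  rw [← map_mul, mul_comm, map_mul]

/-- free pairs with the same algebra as the free pair `p, q` -/
theorem cmlf_core (hF : Facts K w) (p q f g : A K 3) (hpq : p * q ≠ q * p) (hcp : ¬ Com w p q)
    (hlt : dg w p < dg w q) (hT : T2 p q) (hB : B f g = B p q) (hfg : f * g ≠ g * f)
    (hcf : ¬ Com w f g) (hle : dg w f ≤ dg w g) : T2 f g := by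
  obtain ⟨-, hp, hq⟩ := hF.e.pos p q hpq
  obtain ⟨-, hf, hg⟩ := hF.e.pos f g hfg
  have hfB : f ∈ B p q := by rw [← hB]; exact hF.s.bf _ _
  have hgB : g ∈ B p q := by rw [← hB]; exact hF.s.bg _ _
  have hpB : p ∈ B f g := by rw [hB]; exact hF.s.bf _ _
  have hqB : q ∈ B f g := by rw [hB]; exact hF.s.bg _ _
  have e1 : dg w p ≤ dg w f := small_of hF p q f hp hq hcp hlt.le hfB hf
  have e2 : dg w f ≤ dg w p := small_of hF f g p hf hg hcf hle hpB hp
  have e3 : dg w f = dg w p := le_antisymm e2 e1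
  -- `f = a p + b`
  obtain ⟨R, hR⟩ := hF.t.fr1 p q f hp hq hcp hfB (by rw [e3]; exact hlt)
  have hR1 : R.natDegree = 1 := by
    have h1 := e3
    rw [hR, hF.d.poly p R hp] at h1
    have h2 : (R.natDegree : ℝ) = 1 := by
      have h3 : ((R.natDegree : ℝ) - 1) * dg w p = 0 := by linarith
      rcases mul_eq_zero.1 h3 with h4 | h4
      · linarith
      · exact absurd h4 hp.ne'
    exact_mod_cast h2
  obtain ⟨a, ha, b, hab⟩ := (Polynomial.natDegree_eq_one.1 hR1)
  have hf1 : f = a • p + Polynomial.aeval q (0 : Polynomial K) + b • 1 := by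
    rw [hR, ← hab]
    simp [Algebra.algebraMap_eq_smul_one]
  -- `|g| = |q|`
  have e4 : dg w q ≤ dg w g := by
    by_contra hlt2
    push Not at hlt2
    obtain ⟨S, hS⟩ := hF.t.fr1 p q g hp hq hcp hgB hlt2
    apply hfg
    rw [hR, hS]
    exact aeval_comm2 p R S
  have e5 : dg w g ≤ dg w q := by
    by_contra hlt2
    push Not at hlt2
    obtain ⟨S, hS⟩ := hF.t.fr1 f g q hf hg hcf hqB hlt2
    obtain ⟨S', hS'⟩ := hF.t.fr1 f g p hf hg hcf hpB (by linarith)
    apply hpq
    rw [hS, hS']
    exact aeval_comm2 f S' S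
  obtain ⟨c, S, hS⟩ := hF.t.fr2 p q g hp hq hcp hgB (by
    have : 0 < min (dg w p) (dg w q) := lt_min hp hq
    linarith)
  have hc : c ≠ 0 := by
    rintro rfl
    apply hfg
    rw [hS, zero_smul, zero_add, hR]
    exact aeval_comm2 p R S
  -- `T2`
  have t1 : T2 g p := by
    rw [hS]
    exact T2.el q p c S (T2.swap p q hT) hc
  have t2 : T2 p g := T2.swap g p t1
  have t3 := T2.el p g a (Polynomial.C b) t2 ha
  have h3 : f = a • p + Polynomial.aeval g (Polynomial.C b) := by
    rw [hf1]
    simp [Algebra.algebraMap_eq_smul_one]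
  rw [h3]
  exact t3

end

/-- module CMLF -/
theorem cmlf (K : Type*) [Field K] (w : Fin 3 → ℝ) (hw : Gen w) (hF : Facts K w) :
    CmlfStatement K w := by
  -- the pair `x_1, x_2`
  have hne : w 1 ≠ w 2 := w_ne hw (by decide)
  have h12 := x12 hF
  have hcom : ¬ Com w (xx 1 : A K 3) (xx 2) := com12 hF
  have hcom' : ¬ Com w (xx 2 : A K 3) (xx 1) := fun h => hcom (comsymm hF _ _ h)
  have base1 : T2 (xx 1 : A K 3) (xx 2) := T2.base
  have base2 : T2 (xx 2 : A K 3) (xx 1) := T2.swap _ _ T2.base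
  -- ordered version
  have core : ∀ f g : A K 3, B f g = B (xx 1) (xx 2) → ¬ Com w f g → dg w f ≤ dg w g → T2 f g := by
    intro f g hB hc hle
    have hfg := nc_of hF f g hB
    rcases lt_or_gt_of_ne hne with h | h
    · exact cmlf_core hF (xx 1) (xx 2) f g h12 hcom (by rw [hF.d.xx', hF.d.xx']; exact h) base1
        hB hfg hc hle
    · exact cmlf_core hF (xx 2) (xx 1) f g h12.symm hcom' (by rw [hF.d.xx', hF.d.xx']; exact h)
        base2 (by rw [hB, hF.s.bcomm]) hfg hc hle
  intro f g hB hc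
  rcases le_total (dg w f) (dg w g) with h | h
  · exact core f g hB hc h
  · apply T2.swap
    exact core g f (by rw [hF.s.bcomm, hB]) (fun h2 => hc (comsymm hF _ _ h2)) h

section

variable {K : Type*} [Field K] {w : Fin 3 → ℝ}

/-- words evaluated at `f, g` commute with `f` up to smaller degree -/
theorem word_comm (hF : Facts K w) (f g : A K 3) (ε : ℝ) (h1 : ε ≤ dg w f)
    (h2 : E w f g ≤ dg w f + dg w g - ε) (u : List (Fin 2)) :
    dg w (FreeMonoid.lift ![f, g] (FreeMonoid.ofList u)) ≤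
        wt ![dg w f, dg w g] (FreeMonoid.ofList u) ∧
      dg w (FreeMonoid.lift ![f, g] (FreeMonoid.ofList u) * f -
          f * FreeMonoid.lift ![f, g] (FreeMonoid.ofList u)) ≤
        wt ![dg w f, dg w g] (FreeMonoid.ofList u) + dg w f - ε := by
  induction u with
  | nil =>
    have e1 : FreeMonoid.lift ![f, g] (FreeMonoid.ofList ([] : List (Fin 2))) = 1 := rfl
    have e2 : wt ![dg w f, dg w g] (FreeMonoid.ofList ([] : List (Fin 2))) = 0 := rfl
    rw [e1, e2, one_mul, mul_one, sub_self, hF.d.zero]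
    have h3 := hF.d.const 1
    rw [one_smul] at h3
    rw [h3]
    exact ⟨le_rfl, by linarith⟩
  | cons j u ih =>
    have e0 : (FreeMonoid.ofList (j :: u) : Wd 2) = FreeMonoid.of j * FreeMonoid.ofList u := rfl
    rw [e0, map_mul, FreeMonoid.lift_eval_of, wt_mul, wt_of]
    set v := FreeMonoid.lift ![f, g] (FreeMonoid.ofList u) with hv
    obtain ⟨i1, i2⟩ := ih
    have hj : j = 0 ∨ j = 1 := by
      fin_cases j
      · exact Or.inl rfl
      · exact Or.inr rfl
    rcases hj with rfl | rfl
    · have c1 : (![f, g] : Fin 2 → A K 3) 0 = f := rfl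
      have c2 : (![dg w f, dg w g] : Fin 2 → ℝ) 0 = dg w f := rfl
      rw [c1, c2]
      constructor
      · exact (hF.d.mul_le _ _).trans (by linarith)
      · have e : f * v * f - f * (f * v) = f * (v * f - f * v) := by
          rw [mul_sub, mul_assoc]
        rw [e]
        exact (hF.d.mul_le _ _).trans (by linarith)
    · have c1 : (![f, g] : Fin 2 → A K 3) 1 = g := rfl
      have c2 : (![dg w f, dg w g] : Fin 2 → ℝ) 1 = dg w g := rfl
      rw [c1, c2]
      constructor
      · exact (hF.d.mul_le _ _).trans (by linarith)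
      · have e : g * v * f - f * (g * v) = g * (v * f - f * v) + (g * f - f * g) * v := by
          simp only [mul_sub, sub_mul, mul_assoc]
          abel
        rw [e]
        refine (hF.d.add_le _ _).trans (max_le ?_ ?_)
        · exact (hF.d.mul_le _ _).trans (by linarith)
        · have h3 : dg w (g * f - f * g) = E w f g := hF.d.sub_comm _ _
          exact (hF.d.mul_le _ _).trans (by rw [h3]; linarith)

/-- nondegenerate polynomials in a commuting pair commute (tops) with `f` -/
theorem nondeg_com (hF : Facts K w) (f g : A K 3) (P : A K 2) (hf : 0 < dg w f) (hc : Com w f g)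
    (hnd : dg ![dg w f, dg w g] P ≤ dg w (ev P f g)) : Com w (ev P f g) f := by
  set ε := min (dg w f) (dg w f + dg w g - E w f g) with hε
  have hε0 : 0 < ε := lt_min hf (by unfold Com at hc; linarith)
  have h1 : ε ≤ dg w f := min_le_left _ _
  have h2 : E w f g ≤ dg w f + dg w g - ε := by
    have := min_le_right (dg w f) (dg w f + dg w g - E w f g)
    linarith
  have h0 : 0 ≤ dg ![dg w f, dg w g] P := by
    change 0 ≤ dgr (wt ![dg w f, dg w g]) P
    by_cases hP : P = 0
    · rw [hP, dgr_zero]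
    · obtain ⟨u, hu, he⟩ := exists_dgr (ω := wt ![dg w f, dg w g]) hP
      rw [he]
      unfold wt
      apply List.sum_nonneg
      intro x hx
      rw [List.mem_map] at hx
      obtain ⟨i, -, rfl⟩ := hx
      fin_cases i
      · exact hF.d.nn f
      · exact hF.d.nn g
  have hsum : ev P f g * f - f * ev P f g = ∑ u ∈ P.coeff.support,
      P.coeff u • (FreeMonoid.lift ![f, g] u * f - f * FreeMonoid.lift ![f, g] u) := by
    have e : ev P f g = ∑ u ∈ P.coeff.support, P.coeff u • FreeMonoid.lift ![f, g] u := by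
      rw [ev_eq]
      unfold evl
      rw [MonoidAlgebra.lift_apply]
      rfl
    rw [e, Finset.sum_mul, Finset.mul_sum, ← Finset.sum_sub_distrib]
    refine Finset.sum_congr rfl fun u _ => ?_
    rw [smul_mul_assoc, mul_smul_comm, smul_sub]
  unfold Com E
  rw [hsum]
  refine lt_of_le_of_lt (hF.d.sum_le _ _ _ (dg ![dg w f, dg w g] P + dg w f - ε) (by linarith) ?_)
    (by linarith)
  intro u hu
  refine (hF.d.smul_le _ _).trans ?_
  have h3 := (word_comm hF f g ε h1 h2 u.toList).2
  rw [FreeMonoid.ofList_toList] at h3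
  have h4 : wt ![dg w f, dg w g] u ≤ dg ![dg w f, dg w g] P := le_dgr hu
  linarith

theorem wt_count (w : Fin 3 → ℝ) (u : List (Fin 3)) : (u.map w).sum =
    (u.count 0 : ℝ) * w 0 + (u.count 1 : ℝ) * w 1 + (u.count 2 : ℝ) * w 2 := by
  induction u with
  | nil => simp
  | cons j u ih =>
    rw [List.map_cons, List.sum_cons, ih]
    have hj : j = 0 ∨ j = 1 ∨ j = 2 := by
      fin_cases j
      · exact Or.inl rfl
      · exact Or.inr (Or.inl rfl)
      · exact Or.inr (Or.inr rfl)
    rcases hj with rfl | rfl | rfl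
    · rw [List.count_cons_self, List.count_cons_of_ne (by decide), List.count_cons_of_ne (by decide)]
      push_cast
      ring
    · rw [List.count_cons_self, List.count_cons_of_ne (by decide), List.count_cons_of_ne (by decide)]
      push_cast
      ring
    · rw [List.count_cons_self, List.count_cons_of_ne (by decide), List.count_cons_of_ne (by decide)]
      push_cast
      ring

theorem kill_ev (i : Fin 3) (P : A K 2) (f g : A K 3) :
    kill i (ev P f g) = ev P (kill i f) (kill i g) := by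
  have h : (kill i : A K 3 →ₐ[K] A K 3).comp (evl ![f, g] : A K 2 →ₐ[K] A K 3) =
      (evl ![kill i f, kill i g] : A K 2 →ₐ[K] A K 3) := by
    apply alg_ext
    intro j
    rw [AlgHom.comp_apply, evl_xx, evl_xx]
    fin_cases j <;> rfl
  exact congrArg (fun φ : A K 2 →ₐ[K] A K 3 => φ P) h

theorem kill_xx (i j : Fin 3) : kill i (xx j : A K 3) = if j = i then 0 else xx j := by
  unfold kill
  rw [evl_xx]

/-- commutators in `K⟨x_1, x_2⟩` only have words with both letters -/
theorem comm_ge (hw : Gen w) (hF : Facts K w) (hC : ChainFacts K 3) (f g : A K 3)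
    (hf : f ∈ B (xx 1 : A K 3) (xx 2)) (hg : g ∈ B (xx 1 : A K 3) (xx 2)) (hfg : f * g ≠ g * f) :
    w 1 + w 2 ≤ E w f g := by
  obtain ⟨P, hP⟩ := (hC.bmem _ _ _).1 hf
  obtain ⟨Q, hQ⟩ := (hC.bmem _ _ _).1 hg
  have key : ∀ i : Fin 3, (i = 1 ∨ i = 2) → kill i (f * g - g * f) = 0 := by
    intro i hi
    rw [map_sub, map_mul, map_mul, sub_eq_zero]
    rcases hi with rfl | rfl
    · apply comm_of (kill 1 (xx 1)) (kill 1 (xx 2))
      · rw [kill_xx, if_pos rfl, zero_mul, mul_zero]
      · rw [hP, kill_ev]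
        exact (hC.bmem _ _ _).2 ⟨P, rfl⟩
      · rw [hQ, kill_ev]
        exact (hC.bmem _ _ _).2 ⟨Q, rfl⟩
    · apply comm_of (kill 2 (xx 1)) (kill 2 (xx 2))
      · rw [kill_xx 2 2, if_pos rfl, zero_mul, mul_zero]
      · rw [hP, kill_ev]
        exact (hC.bmem _ _ _).2 ⟨P, rfl⟩
      · rw [hQ, kill_ev]
        exact (hC.bmem _ _ _).2 ⟨Q, rfl⟩
  obtain ⟨u, hu, he⟩ := exists_dgr (ω := wt w) (sub_ne_zero.2 hfg)
  have hE : E w f g = wt w u := he
  have hcnt : ∀ i : Fin 3, (i = 1 ∨ i = 2) → 1 ≤ u.toList.count i := by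
    intro i hi
    by_contra h0
    have h1 : u.toList.count i = 0 := by omega
    apply hu
    have h2 := key i hi
    rw [← cnt_zero_eq] at h2
    have h3 : (cnt i 0 (f * g - g * f)).coeff u = 0 := by
      rw [h2]
      simp
    rw [coeff_cnt, if_pos h1] at h3
    exact h3
  rw [hE]
  unfold wt
  rw [wt_count]
  have c1 : (1 : ℝ) ≤ u.toList.count 1 := by exact_mod_cast hcnt 1 (Or.inl rfl)
  have c2 : (1 : ℝ) ≤ u.toList.count 2 := by exact_mod_cast hcnt 2 (Or.inr rfl)
  have c0 : (0 : ℝ) ≤ u.toList.count 0 := Nat.cast_nonneg _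
  have p0 := hw.pos 0
  have p1 := hw.pos 1
  have p2 := hw.pos 2
  nlinarith

end

/-- module CMLN -/
theorem cmln (K : Type*) [Field K] (w : Fin 3 → ℝ) (hw : Gen w) (hF : Facts K w)
    (hN : NoneStatement K w) (hC : ChainFacts K 3) : CmlnStatement K w := by
  have core : ∀ f g : A K 3, B f g = B (xx 1) (xx 2) → ND w f g → dg w g < dg w f → False := by
    intro f g hB hnd hlt
    have hfg := nc_of hF f g hB
    have hE : w 1 + w 2 ≤ E w f g := comm_ge hw hF hC f g (by rw [← hB]; exact hF.s.bf _ _)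
      (by rw [← hB]; exact hF.s.bg _ _) hfg
    have p1 := hw.pos 1
    have p2 := hw.pos 2
    obtain ⟨x, hx, hxd, hxc⟩ : ∃ x : A K 3, x ∈ B f g ∧ dg w x < w 1 + w 2 ∧ ¬ Com w x f := by
      by_cases h1 : Com w (xx 1) f
      · refine ⟨xx 2, by rw [hB]; exact hF.s.bg _ _, by rw [hF.d.xx']; linarith, fun h2 => ?_⟩
        apply com12 hF
        exact hF.c.trans (xx 1) f (xx 2) (by rw [hF.d.xx']; exact p1) hnd.pf
          (by rw [hF.d.xx']; exact p2) h1 (comsymm hF _ _ h2)
      · exact ⟨xx 1, by rw [hB]; exact hF.s.bf _ _, by rw [hF.d.xx']; linarith, h1⟩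
    obtain ⟨P, hP⟩ := (hC.bmem f g x).1 hx
    by_cases hdeg : dg w (ev P f g) < dg ![dg w f, dg w g] P
    · have h3 := hN f g P hfg hnd hlt hdeg
      rw [← hP] at h3
      linarith
    · push Not at hdeg
      apply hxc
      rw [hP]
      exact nondeg_com hF f g P hnd.pf hnd.com hdeg
  intro f g hB hnd
  rcases lt_or_gt_of_ne (hF.t.ndne f g hnd) with h | h
  · exact core g f (by rw [hF.s.bcomm, hB]) (hF.t.ndsymm f g hnd) h
  · exact core f g hB hnd h

/-- module CML -/
theorem cml (K : Type*) [Field K] (w : Fin 3 → ℝ) (hw : Gen w) (hF : Facts K w)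
    (h1 : CmlfStatement K w) (h2 : CmlnStatement K w) : CmlStatement K := by
  -- measure: number of weights at most `|f| + |g|`
  have main : ∀ (m : ℕ) (f g : A K 3),
      {x : ℝ | x ≤ dg w f + dg w g ∧ ∃ u : Wd 3, x = wt w u}.ncard ≤ m →
      B f g = B (xx 1) (xx 2) → T2 f g := by
    intro m
    induction m with
    | zero =>
      intro f g hm _
      exfalso
      have hfin := hF.d.fin (dg w f + dg w g)
      have h3 := (Set.ncard_eq_zero hfin).1 (Nat.le_zero.1 hm)
      have h4 : (0 : ℝ) ∈ {x : ℝ | x ≤ dg w f + dg w g ∧ ∃ u : Wd 3, x = wt w u} :=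
        ⟨add_nonneg (hF.d.nn f) (hF.d.nn g), 1, (wt_one w).symm⟩
      rw [h3] at h4
      exact h4
    | succ m ih =>
      intro f g hm hB
      have hfg := nc_of hF f g hB
      obtain ⟨-, hf, hg⟩ := hF.e.pos f g hfg
      -- the step
      have step : ∀ f' g' : A K 3, dg w f' + dg w g' < dg w f + dg w g →
          B f' g' = B (xx 1) (xx 2) → T2 f' g' := by
        intro f' g' hlt hB'
        apply ih f' g' _ hB'
        have hfin := hF.d.fin (dg w f + dg w g)
        have hsub : {x : ℝ | x ≤ dg w f' + dg w g' ∧ ∃ u : Wd 3, x = wt w u} ⊆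
            {x : ℝ | x ≤ dg w f + dg w g ∧ ∃ u : Wd 3, x = wt w u} :=
          fun x hx => ⟨hx.1.trans hlt.le, hx.2⟩
        have hss : {x : ℝ | x ≤ dg w f' + dg w g' ∧ ∃ u : Wd 3, x = wt w u} ⊂
            {x : ℝ | x ≤ dg w f + dg w g ∧ ∃ u : Wd 3, x = wt w u} := by
          rw [Set.ssubset_iff_of_subset hsub]
          obtain ⟨u, hu⟩ := hF.d.val f
          obtain ⟨v, hv⟩ := hF.d.val g
          refine ⟨dg w f + dg w g, ⟨le_rfl, u * v, by rw [wt_mul, hu, hv]⟩, fun h => ?_⟩
          exact absurd h.1 (not_le.2 hlt)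
        have := Set.ncard_lt_ncard hss hfin
        omega
      -- divisible pairs
      have div : ∀ f g : A K 3, B f g = B (xx 1) (xx 2) → Dv w f g →
          (∀ f' g' : A K 3, dg w f' + dg w g' < dg w f + dg w g →
            B f' g' = B (xx 1) (xx 2) → T2 f' g') → T2 f g := by
        intro f g hB hdv hst
        obtain ⟨c, k, hk, hlt⟩ := hdv
        have e1 : f - c • g ^ k =
            (1 : K) • f + Polynomial.aeval g (-(Polynomial.C c * Polynomial.X ^ k)) := by
          rw [map_neg, map_mul, Polynomial.aeval_C, map_pow, Polynomial.aeval_X, one_smul,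
            ← Algebra.smul_def, sub_eq_add_neg]
        have h3 : T2 (f - c • g ^ k) g := by
          apply hst
          · linarith
          · rw [e1, hF.s.bel f g 1 _ one_ne_zero, hB]
        have h4 := T2.el (f - c • g ^ k) g 1 (Polynomial.C c * Polynomial.X ^ k) h3 one_ne_zero
        have e2 : (1 : K) • (f - c • g ^ k) +
            Polynomial.aeval g (Polynomial.C c * Polynomial.X ^ k) = f := by
          rw [map_mul, Polynomial.aeval_C, map_pow, Polynomial.aeval_X, one_smul,
            ← Algebra.smul_def, sub_add_cancel]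
        rwa [e2] at h4
      by_cases hc : Com w f g
      · by_cases d1 : Dv w f g
        · exact div f g hB d1 step
        · by_cases d2 : Dv w g f
          · apply T2.swap
            apply div g f (by rw [hF.s.bcomm, hB]) d2
            intro f' g' h
            exact step f' g' (by linarith)
          · exact (h2 f g hB ⟨hf, hg, hc, d1, d2⟩).elim
      · exact h1 f g hB hc
  intro f g hB
  exact main _ f g le_rfl hB

end Pool.Agent.Lib.MP_e1f7e2_al.FA.H15
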