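import Pool.Agent.Lib.MP_e1f7e2_al.FA.Iface2
import Pool.Agent.Lib.MP_e1f7e2_al.FA.H47.Deg
import Pool.Agent.Lib.MP_e1f7e2_al.FA.H74.Chain

set_option autoImplicit false

/-!
Project FA: parts with a given number of letters, the embedding `em`, and module NONE.
-/

open MulOpposite

namespace Pool.Agent.Lib.MP_e1f7e2_al.FA.H15

open Pool.Agent.Lib.MP_e1f7e2_al.FA.H47.Gr Pool.Agent.Lib.MP_e1f7e2_al.FA.H74

section

variable {K : Type*} [Field K] {n m : ℕ}

theorem coeff_cnt (i : Fin n) (m : ℕ) (f : A K n) (u : Wd n) :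
    (cnt i m f).coeff u = if u.toList.count i = m then f.coeff u else 0 := by
  classical
  unfold cnt
  rw [MonoidAlgebra.coeff_ofCoeff, Finsupp.filter_apply]

theorem cnt_add (i : Fin n) (m : ℕ) (f g : A K n) : cnt i m (f + g) = cnt i m f + cnt i m g := by
  apply ext'
  intro u
  rw [coeff_add, coeff_cnt, coeff_cnt, coeff_cnt, coeff_add]
  split_ifs
  · rfl
  · rw [add_zero]

theorem cnt_zero' (i : Fin n) (m : ℕ) : cnt i m (0 : A K n) = 0 := by
  apply ext'
  intro u
  rw [coeff_cnt]
  split_ifs <;> simp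

theorem cnt_single (i : Fin n) (m : ℕ) (u : Wd n) (c : K) :
    cnt i m (MonoidAlgebra.single u c : A K n) =
      if u.toList.count i = m then MonoidAlgebra.single u c else 0 := by
  classical
  apply ext'
  intro v
  rw [coeff_cnt, MonoidAlgebra.coeff_single, Finsupp.single_apply]
  by_cases h : u = v
  · subst h
    rw [if_pos rfl]
    split_ifs with h2
    · rw [MonoidAlgebra.coeff_single, Finsupp.single_eq_same]
    · simp
  · rw [if_neg h]
    split_ifs with h2 h3
    · rw [MonoidAlgebra.coeff_single, Finsupp.single_apply, if_neg h]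
    · simp
    · rw [MonoidAlgebra.coeff_single, Finsupp.single_apply, if_neg h]
    · simp

theorem evl_xx {B : Type*} [Ring B] [Algebra K B] (F : Fin n → B) (i : Fin n) :
    evl F (xx i : A K n) = F i := by
  unfold xx
  rw [evl_single, FreeMonoid.lift_eval_of, one_smul]

theorem alg_ext {B : Type*} [Ring B] [Algebra K B] (φ ψ : A K n →ₐ[K] B)
    (h : ∀ i, φ (xx i) = ψ (xx i)) : φ = ψ := by
  apply MonoidAlgebra.algHom_ext'
  · apply FreeMonoid.hom_eq
    intro i
    exact h i
  · exact Subsingleton.elim _ _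

/-- the substitution `x_i ↦ 0` on words -/
theorem kill_word (i : Fin n) (u : List (Fin n)) :
    FreeMonoid.lift (fun j => if j = i then (0 : A K n) else xx j) (FreeMonoid.ofList u) =
      if u.count i = 0 then MonoidAlgebra.single (FreeMonoid.ofList u) 1 else 0 := by
  induction u with
  | nil =>
    rw [List.count_nil, if_pos rfl]
    rfl
  | cons j u ih =>
    have h1 : (FreeMonoid.ofList (j :: u) : Wd n) = FreeMonoid.of j * FreeMonoid.ofList u := rfl
    rw [h1, map_mul, FreeMonoid.lift_eval_of, ih]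
    by_cases hj : j = i
    · subst hj
      rw [if_pos rfl, zero_mul, List.count_cons_self, if_neg (by omega)]
    · rw [if_neg hj, List.count_cons_of_ne hj]
      split_ifs with h2
      · unfold xx
        rw [MonoidAlgebra.single_mul_single, mul_one]
      · rw [mul_zero]

/-- the substitution `x_i ↦ 0` -/
noncomputable def kill (i : Fin n) : A K n →ₐ[K] A K n := evl (fun j => if j = i then 0 else xx j)

theorem cnt_zero_eq (i : Fin n) (F : A K n) : cnt i 0 F = kill i F := by
  unfold kill
  refine MonoidAlgebra.induction_linear F ?_ ?_ ?_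
  · rw [cnt_zero', map_zero]
  · intro f g hf hg
    rw [cnt_add, map_add, hf, hg]
  · intro u c
    rw [cnt_single, evl_single]
    have h := kill_word (K := K) i u.toList
    rw [FreeMonoid.ofList_toList] at h
    rw [h]
    split_ifs
    · rw [MonoidAlgebra.smul_single', mul_one]
    · rw [smul_zero]

/-! ## the embedding `em` -/

/-- the embedding on words -/
def mw : Wd 3 →* Wd 4 := FreeMonoid.map Fin.castSucc

theorem mw_inj : Function.Injective mw := by
  intro a b h
  apply FreeMonoid.toList.injective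
  have h2 : (mw a).toList = (mw b).toList := by rw [h]
  have h3 : ∀ c : Wd 3, (mw c).toList = c.toList.map Fin.castSucc := fun c => by
    unfold mw
    exact FreeMonoid.toList_map _ _
  rw [h3, h3] at h2
  exact List.map_injective_iff.2 (Fin.castSucc_injective 3) h2

theorem wt_mw (w : Fin 3 → ℝ) (u : Wd 3) : wt (w4 w) (mw u) = wt w u := by
  have h3 : ∀ c : Wd 3, (mw c).toList = c.toList.map Fin.castSucc := fun c => by
    unfold mw
    exact FreeMonoid.toList_map _ _
  unfold wt
  rw [h3, List.map_map]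
  congr 1
  apply List.map_congr_left
  intro i _
  fin_cases i <;> rfl

theorem em_single (u : Wd 3) (c : K) :
    em (MonoidAlgebra.single u c : A K 3) = MonoidAlgebra.single (mw u) c := by
  unfold em
  rw [evl_single, single_eq (mw u) c]
  congr 1
  have h : FreeMonoid.lift (fun i : Fin 3 => (xx (Fin.castSucc i) : A K 4)) =
      (MonoidAlgebra.of K (Wd 4)).comp mw := by
    apply FreeMonoid.hom_eq
    intro i
    rw [FreeMonoid.lift_eval_of]
    rfl
  rw [h]
  rfl

theorem coeff_em (f : A K 3) (u : Wd 3) : (em f).coeff (mw u) = f.coeff u := by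
  classical
  refine MonoidAlgebra.induction_linear f ?_ ?_ ?_
  · rw [map_zero]
    simp
  · intro f g hf hg
    rw [map_add, coeff_add, coeff_add, hf, hg]
  · intro v c
    rw [em_single, MonoidAlgebra.coeff_single, MonoidAlgebra.coeff_single, Finsupp.single_apply,
      Finsupp.single_apply]
    by_cases h : v = u
    · rw [if_pos h, if_pos (by rw [h])]
    · rw [if_neg h, if_neg (fun h2 => h (mw_inj h2))]

theorem em_supp (f : A K 3) (v : Wd 4) (hv : (em f).coeff v ≠ 0) : ∃ u, v = mw u := by
  classical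
  by_contra hno
  apply hv
  clear hv
  refine MonoidAlgebra.induction_linear f ?_ ?_ ?_
  · rw [map_zero]
    simp
  · intro f g hf hg
    rw [map_add, coeff_add, hf, hg, add_zero]
  · intro u c
    rw [em_single, MonoidAlgebra.coeff_single, Finsupp.single_apply, if_neg]
    intro h
    exact hno ⟨u, h.symm⟩

theorem em_ne (f : A K 3) (hf : f ≠ 0) : em f ≠ 0 := by
  intro h
  apply hf
  apply ext'
  intro u
  rw [← coeff_em, h]
  simp

theorem dg_em (w : Fin 3 → ℝ) (f : A K 3) : dg (w4 w) (em f) = dg w f := by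
  by_cases hf : f = 0
  · rw [hf, map_zero]
    unfold dg
    rw [dgr_zero, dgr_zero]
  · unfold dg
    apply le_antisymm
    · obtain ⟨v, hv, he⟩ := exists_dgr (ω := wt (w4 w)) (em_ne f hf)
      obtain ⟨u, rfl⟩ := em_supp f v hv
      rw [he, wt_mw]
      rw [coeff_em] at hv
      exact le_dgr' hv
    · obtain ⟨u, hu, he⟩ := exists_dgr (ω := wt w) hf
      rw [he, ← wt_mw]
      apply le_dgr'
      rw [coeff_em]
      exact hu

/-- `P^(0) = P(f, g)` -/
theorem pm_zero (f g : A K 3) (P : A K 2) : Pm f g P 0 = em (ev P f g) := by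
  unfold Pm
  rw [cnt_zero_eq, ev_eq]
  have h : ((evl ![em f, em g, xx 3] : A K 3 →ₐ[K] A K 4).comp (kill 2)).comp
      (evl ![xx 0 + xx 2, xx 1] : A K 2 →ₐ[K] A K 3) =
      (em : A K 3 →ₐ[K] A K 4).comp (evl ![f, g] : A K 2 →ₐ[K] A K 3) := by
    apply alg_ext
    intro i
    unfold kill
    fin_cases i
    · change evl ![em f, em g, xx 3] (evl _ (evl ![xx 0 + xx 2, xx 1] (xx 0))) =
        em (evl ![f, g] (xx 0))
      rw [evl_xx, evl_xx]
      change evl ![em f, em g, xx 3] (evl _ (xx 0 + xx 2)) = em f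
      rw [map_add, evl_xx, evl_xx, if_neg (by decide), if_pos rfl, add_zero, evl_xx]
      rfl
    · change evl ![em f, em g, xx 3] (evl _ (evl ![xx 0 + xx 2, xx 1] (xx 1))) =
        em (evl ![f, g] (xx 1))
      rw [evl_xx, evl_xx]
      change evl ![em f, em g, xx 3] (evl _ (xx 1)) = em g
      rw [evl_xx, if_neg (by decide), evl_xx]
      rfl
  exact congrArg (fun φ : A K 2 →ₐ[K] A K 4 => φ P) h

end

/-- module NONE -/
theorem none (K : Type*) [Field K] (w : Fin 3 → ℝ) (hA : NoneaStatement K w)
    (hB : NonebStatement K w) (he : EFacts K w) : NoneStatement K w := by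
  intro f g P hfg hnd hlt hdeg
  obtain ⟨m, hm1, hm2, hm3, hm4⟩ := hB f g P hfg hnd hlt hdeg
  have key : ∀ j : ℕ, Pm f g P j ≠ 0 →
      dg (w4 w) (Pm f g P j) + j * (E w f g - dg w g) ≤ dg (w4 w) (Pm f g P 0) := by
    intro j
    induction j with
    | zero =>
      intro _
      simp
    | succ j ih =>
      intro h
      obtain ⟨h1, h2⟩ := hA f g P j hfg h
      have h3 := ih h1
      push_cast
      linarith
  have h1 := key m hm3
  rw [pm_zero, dg_em] at h1
  have hE := he.nn f g
  have hm1' : (1 : ℝ) ≤ m := by exact_mod_cast hm1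
  nlinarith

end Pool.Agent.Lib.MP_e1f7e2_al.FA.H15
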